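import Pool.Agent.H22.CTP.R53a

/-!
# Row P53 of the board `cto`
-/

set_option autoImplicit false

namespace Pool.CND

open Finset Polynomial

theorem p53_thm : S_P53 := by
  intro p k F L _ _ _ _ _ _ f q s t X Y Yt Yp hp hp2 hk hf hq hF hR hY
  have hLp : CharP L p := charP_of_injective_algebraMap (algebraMap k L).injective p
  obtain ⟨h0, hl, hp, r, r0, r1, r2, r3, r4, r5⟩ := R53a.core
    ((algebraMap k L).comp (algebraMap F k)) hp hq
    (by rw [← Nat.card_eq_fintype_card, hF]) s
    (-(t ^ ((q - 1) * q ^ (s + 1)) + 2 * t ^ ((q - 1) * q ^ (s + 1) - 1))) (t ^ (q ^ (s + 2) - 2)) X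
    (fun i => by
      have h := hR.rel i
      linear_combination h) hR.ind Y Yt Yp hY.y hY.yt hY.yp
  refine ⟨h0, hl, hp, r, ?_, ?_, r2, ?_, r4, r5⟩
  · linear_combination r0
  · linear_combination -r1
  · linear_combination -r3

end Pool.CND
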