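import Pool.Agent.H37.CTO.Stmts
import Pool.Agent.H25.CTL.T54

/-!
# Row P54 of the board `cto`: the first estimates
-/

set_option autoImplicit false

namespace Pool.CND

open Finset Polynomial

namespace P54

variable {k L : Type} [Field k] [Field L] [Algebra k L] (P : Place k L)

/-- the order of `M_1(x)` -/
theorem ordM {x x0 : L} (hx : x ≠ 0) (hx0 : x0 ≠ 0) (q : ℕ) (hq : 2 ≤ q) (h : P.ord x ≤ 0)
    (h0 : 0 < P.ord x0) :
    x ^ q - x0 ^ (q - 1) * x ≠ 0 ∧ P.ord (x ^ q - x0 ^ (q - 1) * x) = q * P.ord x := by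
  have h1 := P.ord_add_of_lt (x := x ^ q) (y := -(x0 ^ (q - 1) * x)) (pow_ne_zero q hx) (by
    refine P.ge_neg (Or.inr ?_)
    rw [P.ord_pow hx, P.ord_mul _ _ (pow_ne_zero _ hx0) hx, P.ord_pow hx0]
    obtain ⟨r, rfl⟩ : ∃ r, q = r + 2 := ⟨q - 2, by omega⟩
    have e : r + 2 - 1 = r + 1 := by omega
    rw [e]
    push_cast
    have h2 : 0 ≤ (r : ℤ) * P.ord x0 := by positivity
    have h3 : (r : ℤ) * P.ord x ≤ 0 := mul_nonpos_of_nonneg_of_nonpos (by positivity) h
    nlinarith)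
  rw [sub_eq_add_neg]
  rw [P.ord_pow hx] at h1
  exact h1

/-- the middle roots -/
theorem mid (r R : ℕ) (hR : r ≤ R) (hr : 1 ≤ r) (t x x0 : L) (e : ℤ) (he : 1 ≤ e)
    (ht : t ≠ 0) (hte : P.ord t = -e) (h2 : P.Ge (2 : L) 0) (hx : x ≠ 0) (hx0 : x0 ≠ 0)
    (hox0 : ((r : ℤ) + 1) * P.ord x0 = (((r : ℤ) + 2) * (R + 2) - 2) * e)
    (hox : ((r : ℤ) + 2) * (R + 1) * P.ord x = -(R * e))
    (rel : x ^ ((r + 2) * ((r + 2) * (R + 2))) -
      (t ^ ((r + 1) * (R + 2)) + 2 * t ^ ((r + 1) * (R + 2) - 1)) * x ^ ((r + 2) * (R + 2)) +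
      t ^ ((r + 2) * (R + 2) - 2) * x ^ (r + 2) + x = 0) :
    P.Ge ((x ^ (r + 2) - x0 ^ (r + 1) * x) ^ (R + 1) / t ^ R - 1) e := by
  have hrZ : (1 : ℤ) ≤ r := by exact_mod_cast hr
  have hRZ : (r : ℤ) ≤ R := by exact_mod_cast hR
  have hRe : 0 ≤ (R : ℤ) * e := by positivity
  have hx_le : P.ord x ≤ 0 := by
    by_contra hc
    rw [not_le] at hc
    have : 0 < ((r : ℤ) + 2) * (R + 1) * P.ord x := by positivity
    omega
  have htpi : ∀ m : ℕ, P.Ge (t ^ m)⁻¹ (m * e) := fun m =>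
    Or.inr (by rw [P.ord_inv (pow_ne_zero m ht), P.ord_pow ht, hte]; linarith [mul_neg (m : ℤ) e])
  have hti : P.Ge t⁻¹ e := Or.inr (by rw [P.ord_inv ht, hte, neg_neg])
  have n1 : (r + 1) * (R + 2) - 1 = r * R + 2 * r + R + 1 := by
    have : (r + 1) * (R + 2) = r * R + 2 * r + R + 1 + 1 := by ring
    omega
  have n2 : (r + 2) * (R + 2) - 2 = r * R + 2 * r + 2 * R + 2 := by
    have : (r + 2) * (R + 2) = r * R + 2 * r + 2 * R + 2 + 2 := by ring
    omega
  have n0 : (r + 1) * (R + 2) = r * R + 2 * r + R + 2 := by ring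
  rw [n1, n2, n0] at rel
  set T : ℕ := r * R + 2 * r + 2 * R + 2 with hT
  -- the two small terms
  set A : L := x ^ ((r + 2) * (r * R + 2 * r + 2 * R + 3)) * (t ^ T)⁻¹ with hA
  set B : L := (x ^ (r + 1))⁻¹ * (t ^ T)⁻¹ with hB
  have hTe : P.ord (t ^ T)⁻¹ = T * e := by
    rw [P.ord_inv (pow_ne_zero T ht), P.ord_pow ht, hte]
    ring
  have htT : (t ^ T)⁻¹ ≠ 0 := inv_ne_zero (pow_ne_zero T ht)
  have hAe : P.Ge A e := by
    refine Or.inr ?_
    rw [hA, P.ord_mul _ _ (pow_ne_zero _ hx) htT, P.ord_pow hx, hTe, hT]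
    push_cast
    by_contra hc
    rw [not_le] at hc
    have h3 : ((R : ℤ) + 1) * (((r : ℤ) + 2) * (r * R + 2 * r + 2 * R + 3) * P.ord x +
        (r * R + 2 * r + 2 * R + 2) * e - e) = e * ((R + 2) * (r + 1) - (R + 1)) := by
      linear_combination ((r : ℤ) * R + 2 * r + 2 * R + 3) * hox
    have h4 : 0 ≤ e * (((R : ℤ) + 2) * (r + 1) - (R + 1)) := by
      have : 0 ≤ ((R : ℤ) + 2) * (r + 1) - (R + 1) := by nlinarith
      positivity
    have h5 : 0 < ((R : ℤ) + 1) * (e - (((r : ℤ) + 2) * (r * R + 2 * r + 2 * R + 3) * P.ord x +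
        (r * R + 2 * r + 2 * R + 2) * e)) := by
      apply mul_pos
      · positivity
      · linarith
    linarith
  have hBe : P.Ge B e := by
    refine Or.inr ?_
    rw [hB, P.ord_mul _ _ (inv_ne_zero (pow_ne_zero _ hx)) htT,
      P.ord_inv (pow_ne_zero _ hx), P.ord_pow hx, hTe, hT]
    push_cast
    have h3 : ((r : ℤ) + 1) * P.ord x ≤ 0 := by nlinarith
    have h4 : 0 ≤ (r : ℤ) * R * e := by positivity
    have h5 : 0 ≤ (r : ℤ) * e := by positivity
    nlinarith
  set w : L := x ^ ((r + 2) * (R + 1)) / t ^ R with hw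
  have hwe : (1 + 2 * t⁻¹) * w = 1 + (A + B) := by
    have hxp : x ^ (r + 2) ≠ 0 := pow_ne_zero _ hx
    have e1 : x ^ ((r + 2) * ((r + 2) * (R + 2))) =
        x ^ ((r + 2) * (r * R + 2 * r + 2 * R + 3)) * x ^ (r + 2) := by
      rw [← pow_add]; congr 1; ring
    have e2 : x ^ ((r + 2) * (R + 2)) = x ^ ((r + 2) * (R + 1)) * x ^ (r + 2) := by
      rw [← pow_add]; congr 1
    have e3 : t ^ (r * R + 2 * r + R + 2) = t ^ (r * R + 2 * r + R + 1) * t := pow_succ _ _
    have e4 : t ^ T = t ^ (r * R + 2 * r + R + 1) * t * t ^ R := by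
      rw [← pow_succ, ← pow_add]; congr 1; rw [hT]; ring
    have e5 : x ^ (r + 2) = x ^ (r + 1) * x := pow_succ _ _
    have hxr : x ^ (r + 1) ≠ 0 := pow_ne_zero _ hx
    have htr : t ^ (r * R + 2 * r + R + 1) ≠ 0 := pow_ne_zero _ ht
    have htR : t ^ R ≠ 0 := pow_ne_zero _ ht
    rw [hw, hA, hB]
    rw [e1, e2, e3, e4] at rel
    rw [e4]
    generalize x ^ ((r + 2) * (r * R + 2 * r + 2 * R + 3)) = a at rel ⊢
    generalize x ^ ((r + 2) * (R + 1)) = b at rel ⊢
    generalize t ^ (r * R + 2 * r + R + 1) = c at rel htr ⊢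
    generalize t ^ R = d at rel htR ⊢
    rw [e5] at rel
    generalize x ^ (r + 1) = g at rel hxr ⊢
    have rel2 : (a - (c * t + 2 * c) * b + c * t * d) * g + 1 = 0 := by
      have : ((a - (c * t + 2 * c) * b + c * t * d) * g + 1) * x = 0 := by
        linear_combination rel
      rcases mul_eq_zero.1 this with h | h
      · exact h
      · exact absurd h hx
    field_simp
    linear_combination -rel2
  have hu : P.Ge ((1 + 2 * t⁻¹) - 1) e := by
    have : (1 + 2 * t⁻¹) - 1 = 2 * t⁻¹ := by ring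
    rw [this]
    exact P.ge_mono (P.ge_mul h2 hti) (by omega)
  obtain ⟨hu0, hu1⟩ := T54.u_ord P he hu
  have hwu : w = (1 + 2 * t⁻¹)⁻¹ * (1 + (A + B)) := by
    rw [← hwe, ← mul_assoc, inv_mul_cancel₀ hu0, one_mul]
  have hw1 : P.Ge (w - 1) e := by
    rw [hwu]
    apply T54.u_mul P (by omega) (T54.u_inv P he hu)
    have : 1 + (A + B) - 1 = A + B := by ring
    rw [this]
    exact P.ge_add hAe hBe
  -- the factor `1 - x0 ^ (q - 1) x ^ (1 - q)`
  set v : L := 1 - x0 ^ (r + 1) * (x ^ (r + 1))⁻¹ with hv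
  have hv1 : P.Ge (v - 1) e := by
    have : v - 1 = -(x0 ^ (r + 1) * (x ^ (r + 1))⁻¹) := by rw [hv]; ring
    rw [this]
    refine P.ge_neg (Or.inr ?_)
    rw [P.ord_mul _ _ (pow_ne_zero _ hx0) (inv_ne_zero (pow_ne_zero _ hx)),
      P.ord_inv (pow_ne_zero _ hx), P.ord_pow hx, P.ord_pow hx0]
    push_cast
    have h3 : ((r : ℤ) + 1) * P.ord x ≤ 0 := by nlinarith
    have h4 : 0 ≤ (r : ℤ) * R * e := by positivity
    have h5 : 0 ≤ (r : ℤ) * e := by positivity
    nlinarith
  have hyv : x ^ (r + 2) - x0 ^ (r + 1) * x = x ^ (r + 2) * v := by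
    have hxr : x ^ (r + 1) ≠ 0 := pow_ne_zero _ hx
    have e5 : x ^ (r + 2) = x ^ (r + 1) * x := pow_succ _ _
    rw [hv, e5]
    field_simp
  have hfin : (x ^ (r + 2) - x0 ^ (r + 1) * x) ^ (R + 1) / t ^ R = w * v ^ (R + 1) := by
    rw [hyv, mul_pow, ← pow_mul, hw]
    ring
  rw [hfin]
  exact T54.u_mul P (by omega) hw1 (T54.u_pow P (by omega) hv1 _)

/-- the small root -/
theorem small (r R : ℕ) (hR : r ≤ R) (hr : 1 ≤ r) (t x0 : L) (e : ℤ) (he : 1 ≤ e)
    (ht : t ≠ 0) (hte : P.ord t = -e) (h2 : P.Ge (2 : L) 0) (hx0 : x0 ≠ 0)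
    (hox0 : ((r : ℤ) + 1) * P.ord x0 = (((r : ℤ) + 2) * (R + 2) - 2) * e)
    (rel : x0 ^ ((r + 2) * ((r + 2) * (R + 2))) -
      (t ^ ((r + 1) * (R + 2)) + 2 * t ^ ((r + 1) * (R + 2) - 1)) * x0 ^ ((r + 2) * (R + 2)) +
      t ^ ((r + 2) * (R + 2) - 2) * x0 ^ (r + 2) + x0 = 0) :
    P.Ge (x0 ^ (r + 1) * t ^ ((r + 2) * (R + 2) - 2) + 1) e := by
  have hrZ : (1 : ℤ) ≤ r := by exact_mod_cast hr
  have hRZ : (r : ℤ) ≤ R := by exact_mod_cast hR
  have hpos : 0 < P.ord x0 := by
    by_contra hc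
    rw [not_lt] at hc
    have h3 : ((r : ℤ) + 1) * P.ord x0 ≤ 0 := mul_nonpos_of_nonneg_of_nonpos (by positivity) hc
    have h4 : 0 < (((r : ℤ) + 2) * (R + 2) - 2) * e := by
      apply mul_pos
      · nlinarith
      · omega
    omega
  have htpow : ∀ m : ℕ, P.Ge (t ^ m) (-(m * e)) := fun m =>
    Or.inr (by rw [P.ord_pow ht, hte]; linarith [mul_neg (m : ℤ) e])
  have n1 : (r + 1) * (R + 2) - 1 = r * R + 2 * r + R + 1 := by
    have : (r + 1) * (R + 2) = r * R + 2 * r + R + 1 + 1 := by ring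
    omega
  have n0 : (r + 1) * (R + 2) = r * R + 2 * r + R + 2 := by ring
  have n2 : (r + 2) * (R + 2) = r * R + 2 * r + 2 * R + 3 + 1 := by ring
  have n3 : (r + 2) * ((r + 2) * (R + 2)) =
      ((r + 2) * (r * R + 2 * r + 2 * R + 3) + r + 1) + 1 := by ring
  have e5 : x0 ^ (r + 2) = x0 ^ (r + 1) * x0 := pow_succ _ _
  have key : x0 ^ (r + 1) * t ^ ((r + 2) * (R + 2) - 2) + 1 =
      (t ^ (r * R + 2 * r + R + 2) + 2 * t ^ (r * R + 2 * r + R + 1)) *
        x0 ^ (r * R + 2 * r + 2 * R + 3) -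
      x0 ^ ((r + 2) * (r * R + 2 * r + 2 * R + 3) + r + 1) := by
    generalize t ^ ((r + 2) * (R + 2) - 2) = d at rel ⊢
    rw [n1, n0, n3, n2, pow_succ x0 ((r + 2) * (r * R + 2 * r + 2 * R + 3) + r + 1),
      pow_succ x0 (r * R + 2 * r + 2 * R + 3), e5] at rel
    apply mul_right_cancel₀ hx0
    linear_combination rel
  rw [key]
  have hmul : ((r : ℤ) * R + 2 * r + 2 * R + 3) * P.ord x0 ≥
      (R + 2) * ((r * R + 2 * r + 2 * R + 2) * e) := by
    have h3 : (((r : ℤ) + 1) * (R + 2)) * P.ord x0 = (R + 2) * ((r * R + 2 * r + 2 * R + 2) * e) := by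
      linear_combination ((R : ℤ) + 2) * hox0
    have h4 : 0 ≤ ((R : ℤ) + 1) * P.ord x0 := by positivity
    nlinarith
  have hTe : 0 ≤ ((r : ℤ) * R + 2 * r + 2 * R + 2) * e := by positivity
  have h0 : 0 ≤ (r : ℤ) * R * e := by positivity
  have h1 : 0 ≤ (r : ℤ) * e := by positivity
  have h1' : 0 ≤ (R : ℤ) * e := by positivity
  have hRT : (R : ℤ) * ((r * R + 2 * r + 2 * R + 2) * e) ≥ 0 := by positivity
  refine P.ge_sub ?_ ?_
  · have hx : P.Ge (x0 ^ (r * R + 2 * r + 2 * R + 3))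
        ((R + 2) * ((r * R + 2 * r + 2 * R + 2) * e)) := by
      refine Or.inr ?_
      rw [P.ord_pow hx0]
      push_cast
      linarith
    have hT1 := htpow (r * R + 2 * r + R + 2)
    have hT2 : P.Ge (2 * t ^ (r * R + 2 * r + R + 1))
        (-(((r * R + 2 * r + R + 2 : ℕ) : ℤ) * e)) := by
      refine P.ge_mono (P.ge_mul h2 (htpow _)) ?_
      push_cast
      linarith
    refine P.ge_mono (P.ge_mul (P.ge_add hT1 hT2) hx) ?_
    push_cast
    nlinarith
  · refine Or.inr ?_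
    rw [P.ord_pow hx0]
    push_cast
    have h6 : 0 ≤ ((r : ℤ) + 1) * ((r * R + 2 * r + 2 * R + 3) * P.ord x0) := by positivity
    have h7 : 0 ≤ ((r : ℤ) + 1) * P.ord x0 := by positivity
    nlinarith

end P54

theorem p54_thm : S_P54 := by
  intro p k F L _ _ _ _ _ _ _ f q s t X Y Yt Yp P hp hp2 hchar hf hq hF hR hO hY
  have : Fact p.Prime := ⟨hp⟩
  have : CharP L p := charP_of_injective_algebraMap (algebraMap k L).injective p
  have hp3 : 3 ≤ p := by
    have := hp.two_le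
    omega
  have hq3 : 3 ≤ q := by
    rw [hq]
    calc 3 ≤ p := hp3
      _ = p ^ 1 := (pow_one p).symm
      _ ≤ p ^ f := Nat.pow_le_pow_right (by omega) hf
  obtain ⟨r, hr⟩ : ∃ r, q = r + 2 := ⟨q - 2, by omega⟩
  have hr1 : 1 ≤ r := by omega
  have hQq : q ≤ q ^ (s + 1) := Nat.le_self_pow (by omega) q
  obtain ⟨R, hRd⟩ : ∃ R, q ^ (s + 1) = R + 2 := ⟨q ^ (s + 1) - 2, by omega⟩
  have hrR : r ≤ R := by omega
  have m1 : q - 1 = r + 1 := by omega
  have m2 : q ^ (s + 1) - 1 = R + 1 := by omega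
  have m3 : q ^ (s + 1) - 2 = R := by omega
  have m4 : q ^ (s + 2) = (r + 2) * (R + 2) := by
    rw [pow_succ, hRd, hr]; ring
  have m5 : q ^ (s + 3) = (r + 2) * ((r + 2) * (R + 2)) := by
    rw [pow_succ, m4]
    conv_lhs => rw [hr]
    ring
  have hqZ : (q : ℤ) = r + 2 := by rw [hr]; push_cast; ring
  have hQZ : (q : ℤ) ^ (s + 1) = R + 2 := by exact_mod_cast congrArg (Nat.cast : ℕ → ℤ) hRd
  have hQ2Z : (q : ℤ) ^ (s + 2) = (r + 2) * (R + 2) := by rw [pow_succ, hQZ, hqZ]; ring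
  have ht : t ≠ 0 := by
    rintro rfl
    exact hR.tr isAlgebraic_zero
  have hrZ : (1 : ℤ) ≤ r := by exact_mod_cast hr1
  have hRZ : (r : ℤ) ≤ R := by exact_mod_cast hrR
  obtain ⟨e, he⟩ : ∃ e, e = -P.ord t := ⟨_, rfl⟩
  have hte : P.ord t = -e := by omega
  have he1 : 1 ≤ e := by
    have := hO.neg
    omega
  have h2 : P.Ge (2 : L) 0 := by
    have := P.ge_const (2 : k)
    rwa [map_ofNat] at this
  have hcst : ∀ a : F, cst k F L a ^ q = cst k F L a := by
    intro a
    have h1 : a ^ q = a := by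
      have h3 := FiniteField.pow_card a
      rwa [← Nat.card_eq_fintype_card, hF] at h3
    change (algebraMap k L (algebraMap F k a)) ^ q = algebraMap k L (algebraMap F k a)
    rw [← map_pow, ← map_pow, h1]
  -- combinations are not zero
  have hne : ∀ c : Fin (s + 3) → F, c ≠ 0 → ∑ i, cst k F L (c i) * X i ≠ 0 :=
    fun c hc h => hc (hR.ind c h)
  have hXi : ∀ i, X i = ∑ j, cst k F L ((Pi.single i 1 : Fin (s + 3) → F) j) * X j := by
    intro i
    rw [Finset.sum_eq_single i]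
    · change X i = algebraMap k L (algebraMap F k ((Pi.single i 1 : Fin (s + 3) → F) i)) * X i
      rw [Pi.single_eq_same, map_one, map_one, one_mul]
    · intro j _ hj
      change algebraMap k L (algebraMap F k ((Pi.single i 1 : Fin (s + 3) → F) j)) * X j = 0
      rw [Pi.single_eq_of_ne hj, map_zero, map_zero, zero_mul]
    · intro h
      exact absurd (Finset.mem_univ i) h
  have hX0 : X 0 ≠ 0 := by
    rw [hXi 0]
    exact hne _ (fun h => one_ne_zero (by
      have := congrFun h 0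
      rwa [Pi.single_eq_same] at this))
  have hox0 : ((r : ℤ) + 1) * P.ord (X 0) = (((r : ℤ) + 2) * (R + 2) - 2) * e := by
    have h3 := hO.small
    rw [hQ2Z, hqZ, hte] at h3
    linarith
  have hpos : 0 < P.ord (X 0) := by
    by_contra hc
    rw [not_lt] at hc
    have h3 : ((r : ℤ) + 1) * P.ord (X 0) ≤ 0 :=
      mul_nonpos_of_nonneg_of_nonpos (by positivity) hc
    have h4 : 0 < (((r : ℤ) + 2) * (R + 2) - 2) * e := by
      apply mul_pos
      · nlinarith
      · omega
    omega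
  have hRe : 0 ≤ (R : ℤ) * e := by positivity
  -- middle combinations
  have hmid : ∀ c : Fin (s + 3) → F, c (Fin.last (s + 2)) = 0 → (∃ i, i ≠ 0 ∧ c i ≠ 0) →
      (∑ i, cst k F L (c i) * X i ≠ 0) ∧
      ((r : ℤ) + 2) * (R + 1) * P.ord (∑ i, cst k F L (c i) * X i) = -(R * e) ∧
      P.ord (∑ i, cst k F L (c i) * X i) ≤ 0 := by
    intro c hc hci
    have h0 : c ≠ 0 := by
      rintro rfl
      obtain ⟨i, -, hi⟩ := hci
      exact hi rfl
    have h3 := hO.mid c hc hci
    rw [hQZ, hte, hqZ] at h3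
    have h4 : ((r : ℤ) + 2) * (R + 1) * P.ord (∑ i, cst k F L (c i) * X i) = -(R * e) := by
      linarith
    refine ⟨hne c h0, h4, ?_⟩
    by_contra hc
    rw [not_le] at hc
    have : 0 < ((r : ℤ) + 2) * (R + 1) * P.ord (∑ i, cst k F L (c i) * X i) := by positivity
    omega
  have hmi0 : ∀ l : Fin (s + 1), mi s l ≠ 0 := by
    intro l h
    have := congrArg Fin.val h
    change l.val + 1 = 0 at this
    omega
  have hmil : ∀ l : Fin (s + 1), mi s l ≠ Fin.last (s + 2) := by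
    intro l h
    have := congrArg Fin.val h
    change l.val + 1 = s + 2 at this
    have := l.isLt
    omega
  have hXl : ∀ l : Fin (s + 1), X (mi s l) ≠ 0 ∧
      ((r : ℤ) + 2) * (R + 1) * P.ord (X (mi s l)) = -(R * e) ∧ P.ord (X (mi s l)) ≤ 0 := by
    intro l
    have h3 := hmid (Pi.single (mi s l) 1) (by
      rw [Pi.single_eq_of_ne (hmil l).symm]) ⟨mi s l, hmi0 l, by
      rw [Pi.single_eq_same]; exact one_ne_zero⟩
    rwa [← hXi] at h3
  have hrel : ∀ i, X i ^ ((r + 2) * ((r + 2) * (R + 2))) -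
      (t ^ ((r + 1) * (R + 2)) + 2 * t ^ ((r + 1) * (R + 2) - 1)) *
        X i ^ ((r + 2) * (R + 2)) +
      t ^ ((r + 2) * (R + 2) - 2) * X i ^ (r + 2) + X i = 0 := by
    intro i
    have h3 := hR.rel i
    rw [m5, m4, hRd, m1] at h3
    conv at h3 =>
      lhs
      rw [show X i ^ q = X i ^ (r + 2) from congrArg (fun a => X i ^ a) hr]
    exact h3
  have hY1 : ∀ l, Y l ≠ 0 ∧ P.ord (Y l) = q * P.ord (X (mi s l)) := by
    intro l
    rw [hY.y l]
    exact P54.ordM P (hXl l).1 hX0 q (by omega) (hXl l).2.2 hpos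
  have hY3 : ∀ l, P.Ge (Y l ^ (R + 1) / t ^ R - 1) e := by
    intro l
    have h3 := P54.mid P r R hrR hr1 t (X (mi s l)) (X 0) e he1 ht hte h2 (hXl l).1 hX0 hox0
      (hXl l).2.1 (hrel _)
    rw [hY.y l, m1]
    conv =>
      arg 2
      rw [show X (mi s l) ^ q = X (mi s l) ^ (r + 2) from congrArg (fun a => X (mi s l) ^ a) hr]
    exact h3
  have hY2 : ∀ l, ((R : ℤ) + 1) * P.ord (Y l) = -(R * e) := by
    intro l
    rw [(hY1 l).2, hqZ]
    linarith [(hXl l).2.1]
  refine ⟨?_, ?_, ?_, ?_, ?_, ?_⟩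
  · have h3 := P54.small P r R hrR hr1 t (X 0) e he1 ht hte h2 hX0 hox0 (hrel 0)
    rw [m1, m4, hte, neg_neg]
    exact h3
  · intro l
    rw [hQZ, hte]
    linarith [hY2 l]
  · intro l
    rw [m2, m3, hte, neg_neg]
    exact hY3 l
  · have hc : (Pi.single (Fin.last (s + 2)) 1 : Fin (s + 3) → F) (Fin.last (s + 2)) ≠ 0 := by
      rw [Pi.single_eq_same]; exact one_ne_zero
    have h3 := hO.top (Pi.single (Fin.last (s + 2)) 1) hc
    rw [← hXi, hte, hqZ] at h3
    have h4 : X (Fin.last (s + 2)) ≠ 0 := by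
      rw [hXi (Fin.last (s + 2))]
      exact hne _ (fun h => one_ne_zero (by
        have := congrFun h (Fin.last (s + 2))
        rwa [Pi.single_eq_same] at this))
    have h5 : P.ord (X (Fin.last (s + 2))) ≤ 0 := by
      by_contra hc
      rw [not_le] at hc
      have : 0 < ((r : ℤ) + 2) * P.ord (X (Fin.last (s + 2))) := by positivity
      omega
    rw [hY.yt]
    exact (P54.ordM P h4 hX0 q (by omega) h5 hpos).1
  · have hc : (Pi.single (Fin.last (s + 2)) 1 : Fin (s + 3) → F) (Fin.last (s + 2)) ≠ 0 := by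
      rw [Pi.single_eq_same]; exact one_ne_zero
    have h3 := hO.top (Pi.single (Fin.last (s + 2)) 1) hc
    rw [← hXi] at h3
    have h4 : X (Fin.last (s + 2)) ≠ 0 := by
      rw [hXi (Fin.last (s + 2))]
      exact hne _ (fun h => one_ne_zero (by
        have := congrFun h (Fin.last (s + 2))
        rwa [Pi.single_eq_same] at this))
    have h5 : P.ord (X (Fin.last (s + 2))) ≤ 0 := by
      rw [hqZ, hte] at h3
      by_contra hc
      rw [not_le] at hc
      have : 0 < ((r : ℤ) + 2) * P.ord (X (Fin.last (s + 2))) := by positivity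
      omega
    rw [hY.yt, (P54.ordM P h4 hX0 q (by omega) h5 hpos).2]
    exact h3
  · -- the residues of the quotients
    have hroot : ∀ l, ∃ γ : k, γ ≠ 0 ∧ γ ^ (R + 1) = 1 ∧
        P.Ge (Y l / Y 0 - algebraMap k L γ) e := by
      intro l
      have hw : P.Ge ((Y l ^ (R + 1) / t ^ R) * (Y 0 ^ (R + 1) / t ^ R)⁻¹ - 1) e :=
        T54.u_mul P (by omega) (hY3 l) (T54.u_inv P he1 (hY3 0))
      have hQ1 : R + 2 - 1 = R + 1 := by omega
      have hrl : (Y l / Y 0) ^ (R + 2 - 1) = algebraMap k L 1 *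
          ((Y l ^ (R + 1) / t ^ R) * (Y 0 ^ (R + 1) / t ^ R)⁻¹) := by
        have htR : t ^ R ≠ 0 := pow_ne_zero _ ht
        have hY0 : Y 0 ^ (R + 1) ≠ 0 := pow_ne_zero _ (hY1 0).1
        rw [hQ1, div_pow, map_one, one_mul]
        field_simp
      obtain ⟨γ, δ, hγ0, hγ1, hγδ, hδ, -⟩ := T54.root P (p := p) (f * (s + 1)) (R + 2)
        (by rw [← hRd, hq, ← pow_mul]) (by omega) e he1 (Y l / Y 0) _ 1 one_ne_zero hrl hw
      refine ⟨γ, hγ0, by rwa [hQ1] at hγ1, ?_⟩
      have e1 : Y l / Y 0 - algebraMap k L γ = algebraMap k L γ * δ := by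
        rw [hγδ]; ring
      rw [e1]
      exact P.ge_mono (P.ge_mul (P.ge_const γ) hδ) (by omega)
    choose γ hγ0 hγ1 hγ2 using hroot
    have hθ : ∀ l, P.Ge (Y l / Y 0 - algebraMap k L ((if l = 0 then 1 else γ l : k))) e := by
      intro l
      by_cases hl : l = 0
      · subst hl
        rw [if_pos rfl, map_one, div_self (hY1 0).1, sub_self]
        exact P.ge_zero e
      · rw [if_neg hl]
        exact hγ2 l
    refine ⟨fun l => if l = 0 then 1 else γ l, if_pos rfl, ?_, ?_, ?_⟩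
    · intro l
      change (if l = 0 then 1 else γ l) ^ q ^ (s + 1) = (if l = 0 then 1 else γ l)
      rw [hRd]
      by_cases hl : l = 0
      · rw [if_pos hl, one_pow]
      · rw [if_neg hl, pow_succ, hγ1 l, one_mul]
    · intro c hc
      by_contra hcne
      -- the combination of the roots
      set c' : Fin (s + 3) → F := Fin.cons 0 (Fin.snoc c 0 : Fin (s + 2) → F) with hc'
      have hcl : ∀ l : Fin (s + 1), c' (mi s l) = c l := by
        intro l
        have e1 : mi s l = l.castSucc.succ := rfl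
        rw [e1, hc', Fin.cons_succ, Fin.snoc_castSucc]
      have hclast : c' (Fin.last (s + 2)) = 0 := by
        have e1 : Fin.last (s + 2) = (Fin.last (s + 1)).succ := rfl
        rw [e1, hc', Fin.cons_succ, Fin.snoc_last]
      have hsum : ∀ f : Fin (s + 3) → L, ∑ i, cst k F L (c' i) * f i =
          ∑ l : Fin (s + 1), cst k F L (c l) * f (mi s l) := by
        intro f
        rw [Fin.sum_univ_succ, Fin.sum_univ_castSucc]
        have e0 : cst k F L (c' 0) = 0 := by
          change algebraMap k L (algebraMap F k (c' 0)) = 0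
          rw [hc', Fin.cons_zero, map_zero, map_zero]
        have e1 : cst k F L (c' (Fin.last (s + 1)).succ) = 0 := by
          change algebraMap k L (algebraMap F k (c' (Fin.last (s + 1)).succ)) = 0
          rw [hc', Fin.cons_succ, Fin.snoc_last, map_zero, map_zero]
        rw [e0, e1, zero_mul, zero_mul, zero_add, add_zero]
        refine Finset.sum_congr rfl fun l _ => ?_
        have e2 : c' l.castSucc.succ = c l := hcl l
        rw [e2]
        rfl
      obtain ⟨l0, hl0⟩ := Function.ne_iff.1 hcne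
      have hm := hmid c' hclast ⟨mi s l0, hmi0 l0, by rw [hcl]; exact hl0⟩
      rw [hsum X] at hm
      set x : L := ∑ l : Fin (s + 1), cst k F L (c l) * X (mi s l) with hxd
      have hM := P54.ordM P hm.1 hX0 q (by omega) hm.2.2 hpos
      have hMx : x ^ q - X 0 ^ (q - 1) * x = ∑ l : Fin (s + 1), cst k F L (c l) * Y l := by
        have e1 : x ^ q = ∑ l : Fin (s + 1), cst k F L (c l) * X (mi s l) ^ q := by
          have e2 : ∀ y : L, y ^ q = iterateFrobenius L p f y := fun y => by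
            rw [iterateFrobenius_def, hq]
          rw [e2, hxd, map_sum]
          refine Finset.sum_congr rfl fun l _ => ?_
          rw [map_mul, ← e2, ← e2, hcst]
        rw [e1, hxd, Finset.mul_sum, ← Finset.sum_sub_distrib]
        refine Finset.sum_congr rfl fun l _ => ?_
        rw [hY.y l]
        ring
      have hge : P.Ge (∑ l : Fin (s + 1), cst k F L (c l) * Y l) (P.ord (Y 0) + e) := by
        have e1 : ∑ l : Fin (s + 1), cst k F L (c l) * Y l =
            Y 0 * ∑ l : Fin (s + 1), cst k F L (c l) *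
              (Y l / Y 0 - algebraMap k L ((if l = 0 then 1 else γ l : k))) := by
          have e2 : ∑ l : Fin (s + 1), cst k F L (c l) *
              algebraMap k L ((if l = 0 then 1 else γ l : k)) = 0 := by
            have e3 := congrArg (algebraMap k L) hc
            rw [map_sum, map_zero] at e3
            rw [← e3]
            refine Finset.sum_congr rfl fun l _ => ?_
            rw [map_mul]
          have e4 : ∑ l : Fin (s + 1), cst k F L (c l) *
              (Y l / Y 0 - algebraMap k L ((if l = 0 then 1 else γ l : k))) =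
              ∑ l : Fin (s + 1), cst k F L (c l) * (Y l / Y 0) := by
            have e5 : ∑ l : Fin (s + 1), cst k F L (c l) *
                (Y l / Y 0 - algebraMap k L ((if l = 0 then 1 else γ l : k))) =
                ∑ l : Fin (s + 1), cst k F L (c l) * (Y l / Y 0) -
                ∑ l : Fin (s + 1), cst k F L (c l) *
                  algebraMap k L ((if l = 0 then 1 else γ l : k)) := by
              rw [← Finset.sum_sub_distrib]
              exact Finset.sum_congr rfl fun l _ => mul_sub _ _ _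
            rw [e5, e2, sub_zero]
          rw [e4, Finset.mul_sum]
          refine Finset.sum_congr rfl fun l _ => ?_
          have hY0 := (hY1 0).1
          field_simp
        rw [e1]
        refine P.ge_mul (P.ge_ord _) (P.ge_sum _ _ _ fun l _ => ?_)
        exact P.ge_mono (P.ge_mul (P.ge_const _) (hθ l)) (by omega)
      rw [← hMx] at hge
      have h6 := (P.ge_iff hM.1 _).1 hge
      rw [hM.2] at h6
      have h7 := hY2 0
      have h8 : ((R : ℤ) + 1) * (q * P.ord x) = -(R * e) := by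
        rw [hqZ]
        linarith [hm.2.1]
      have h9 : ((R : ℤ) + 1) * (P.ord (Y 0) + e) ≤ ((R : ℤ) + 1) * (q * P.ord x) :=
        mul_le_mul_of_nonneg_left h6 (by positivity)
      have h10 : 0 < ((R : ℤ) + 1) * e := by positivity
      linarith
    · intro l
      rw [hte, neg_neg]
      exact hθ l

end Pool.CND
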